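import Pool.Agent.V5helper73.GC.Stm2

/-! # Taylor coefficients and the mean of the modulus -/

set_option autoImplicit false
open Complex Metric Set Filter Topology MeasureTheory

namespace V5helper37.GC

theorem caux (g : ℂ → ℂ) (hg : DifferentiableOn ℂ g (ball 0 1)) (m : ℕ) (s : ℝ) (h0 : 0 < s) (h1 : s < 1) :
  ‖((m.factorial : ℂ)⁻¹ * iteratedDeriv m g 0)‖ * s ^ m ≤
    (1 / (2 * Real.pi)) * ∫ θ in (0:ℝ)..(2 * Real.pi), ‖g (circleMap 0 s θ)‖ := by
  have hs : DifferentiableOn ℂ g (closedBall 0 s) := hg.mono (closedBall_subset_ball h1)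
  have hp := DifferentiableOn.hasFPowerSeriesOnBall (R := ⟨s, h0.le⟩) (c := 0) (f := g) hs
    (by exact_mod_cast h0)
  have h2 := hp.factorial_smul (1 : ℂ) m
  have h3 := norm_cauchyPowerSeries_le g 0 s m
  have h4 : ((m.factorial : ℂ)⁻¹ * iteratedDeriv m g 0) =
      cauchyPowerSeries g 0 s m (fun _ => (1:ℂ)) := by
    rw [iteratedDeriv_eq_iteratedFDeriv, ← h2]
    have h5 : (m.factorial : ℂ) ≠ 0 := by exact_mod_cast m.factorial_ne_zero
    rw [nsmul_eq_mul, ← mul_assoc, inv_mul_cancel₀ h5, one_mul]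
    rfl
  rw [h4]
  have h6 : ‖cauchyPowerSeries g 0 s m (fun _ => (1:ℂ))‖ ≤ ‖cauchyPowerSeries g 0 s m‖ := by
    have := (cauchyPowerSeries g 0 s m).le_opNorm (fun _ => (1:ℂ))
    simpa using this
  have h7 : 0 < s ^ m := pow_pos h0 m
  calc ‖cauchyPowerSeries g 0 s m (fun _ => (1:ℂ))‖ * s ^ m
      ≤ (((2 * Real.pi)⁻¹ * ∫ θ in (0:ℝ)..(2 * Real.pi), ‖g (circleMap 0 s θ)‖) * |s|⁻¹ ^ m) * s ^ m :=
        mul_le_mul_of_nonneg_right (h6.trans h3) h7.le
    _ = _ := by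
        rw [abs_of_pos h0, inv_pow, mul_assoc, inv_mul_cancel₀ h7.ne', mul_one, one_div]

theorem t_CAU : V5helper73.GC.S_CAU :=
  fun g hg m s h0 h1 => caux g hg m s h0 h1

end V5helper37.GC
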