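import Pool.Agent.V5helper73.GC.Stm2
import Pool.Agent.Helper113.Gorin.Schottky
import Pool.Agent.H712R2.Par

/-! # From the class S to the class Sigma -/

set_option autoImplicit false
open Complex Metric Set Filter Topology MeasureTheory

namespace V5helper37.GC

open Pool.Agent.W677.Mar

theorem sbx (f : ℂ → ℂ) (hf : DifferentiableOn ℂ f (ball 0 1)) (hinj : InjOn f (ball 0 1))
    (h0 : f 0 = 0) (h1 : deriv f 0 = 1) :
    ∃ Y H : ℂ → ℂ, Sg Y H ∧ ∀ v ∈ ball (0:ℂ) 1,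
      ‖deriv f v‖ * ‖v‖ ^ 2 = ‖f v‖ ^ 2 * Real.exp (H v).re := by
  have h00 : (0:ℂ) ∈ ball (0:ℂ) 1 := mem_ball_self one_pos
  obtain ⟨g, hg⟩ : ∃ g, g = dslope f 0 := ⟨_, rfl⟩
  have hgd : DifferentiableOn ℂ g (ball 0 1) := by
    rw [hg]
    exact (Complex.differentiableOn_dslope (isOpen_ball.mem_nhds h00)).2 hf
  have hfg : ∀ v, f v = v * g v := by
    intro v
    have h := sub_smul_dslope f 0 v
    rw [h0, sub_zero, sub_zero, smul_eq_mul] at h
    rw [hg, h]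
  have hg0 : g 0 = 1 := by rw [hg, dslope_same, h1]
  have hgne : ∀ v ∈ ball (0:ℂ) 1, g v ≠ 0 := by
    intro v hv h
    have h2 : f v = f 0 := by rw [hfg v, h, mul_zero, h0]
    have h3 := hinj hv h00 h2
    rw [h3, hg0] at h
    exact one_ne_zero h
  have hdf : ∀ v ∈ ball (0:ℂ) 1, deriv f v = g v + v * deriv g v := by
    intro v hv
    have hgv : HasDerivAt g (deriv g v) v := (hgd.differentiableAt (isOpen_ball.mem_nhds hv)).hasDerivAt
    have h2 : HasDerivAt (fun z => z * g z) (1 * g v + v * deriv g v) v := (hasDerivAt_id v).mul hgv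
    have h3 : f = fun z => z * g z := funext hfg
    rw [h3, h2.deriv, one_mul]
  have hdY : ∀ v ∈ ball (0:ℂ) 1, deriv (fun z => (g z)⁻¹) v = -deriv g v / g v ^ 2 := by
    intro v hv
    have hgv : HasDerivAt g (deriv g v) v := (hgd.differentiableAt (isOpen_ball.mem_nhds hv)).hasDerivAt
    exact (hgv.inv (hgne v hv)).deriv
  have hYd : DifferentiableOn ℂ (fun z => (g z)⁻¹) (ball 0 1) := hgd.inv hgne
  have hFd : DifferentiableOn ℂ (fun z => deriv f z / g z ^ 2) (ball 0 1) :=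
    (hf.deriv isOpen_ball).div (hgd.pow 2) (fun z hz => pow_ne_zero 2 (hgne z hz))
  obtain ⟨H, hH, hHe⟩ := H113G.J_schottky.exists_log hFd (fun z hz =>
    div_ne_zero (Pool.Agent.H712R2.M.deriv_ne_zero_of_injOn' isOpen_ball hf hinj hz) (pow_ne_zero 2 (hgne z hz)))
  have hH0 : Complex.exp (H 0) = 1 := by
    rw [hHe 0 h00, h1, hg0, one_pow, div_one]
  have hHe' : ∀ z ∈ ball (0:ℂ) 1, Complex.exp (H z - H 0) = deriv f z / g z ^ 2 := by
    intro z hz
    rw [Complex.exp_sub, hH0, div_one, hHe z hz]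
  refine ⟨fun z => (g z)⁻¹, fun z => H z - H 0, ⟨⟨hYd, ?_, ?_⟩, hH.sub_const _, sub_self _, ?_⟩, ?_⟩
  · show (g 0)⁻¹ = 1
    rw [hg0, inv_one]
  · rintro z ⟨hz, hz0⟩ w ⟨hw, hw0⟩ h
    have h : (g z)⁻¹ / z = (g w)⁻¹ / w := h
    apply hinj hz hw
    rw [hfg, hfg]
    have h2 : (g z)⁻¹ / z = (z * g z)⁻¹ := by rw [mul_inv, div_eq_mul_inv, mul_comm]
    have h3 : (g w)⁻¹ / w = (w * g w)⁻¹ := by rw [mul_inv, div_eq_mul_inv, mul_comm]
    rw [h2, h3] at h
    exact inv_injective h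
  · intro w hw
    show Complex.exp (H w - H 0) = (g w)⁻¹ - w * deriv (fun z => (g z)⁻¹) w
    rw [hHe' w hw, hdY w hw, hdf w hw]
    have h2 := hgne w hw
    field_simp
    ring
  · intro v hv
    show ‖deriv f v‖ * ‖v‖ ^ 2 = ‖f v‖ ^ 2 * Real.exp (H v - H 0).re
    rw [← Complex.norm_exp, hHe' v hv, norm_div, norm_pow, hfg v, norm_mul]
    have h2 : ‖g v‖ ≠ 0 := norm_ne_zero_iff.2 (hgne v hv)
    field_simp

theorem t_SB : V5helper73.GC.S_SB :=
  fun f hf hinj h0 h1 => sbx f hf hinj h0 h1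

end V5helper37.GC
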