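import Pool.Agent.V5helper73.GC.Stm2

/-! # Hoelder inequality for exponential means -/

set_option autoImplicit false
open Complex Metric Set Filter Topology MeasureTheory

namespace V5helper37.GC

theorem holdx (f : ℝ → ℝ) (hf : Continuous f) (α β w : ℝ) (hw0 : 0 ≤ w) (hw1 : w ≤ 1) :
  ∫ θ in (0:ℝ)..(2 * Real.pi), Real.exp (((1 - w) * α + w * β) * f θ) ≤
    (∫ θ in (0:ℝ)..(2 * Real.pi), Real.exp (α * f θ)) ^ (1 - w) * (∫ θ in (0:ℝ)..(2 * Real.pi), Real.exp (β * f θ)) ^ w := by
  rcases hw0.eq_or_lt with h0 | h0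
  · subst h0
    simp
  rcases hw1.eq_or_lt with h1 | h1
  · subst h1
    simp
  have hpi : (0:ℝ) ≤ 2 * Real.pi := by positivity
  rw [intervalIntegral.integral_of_le hpi, intervalIntegral.integral_of_le hpi,
    intervalIntegral.integral_of_le hpi]
  have hbd : ∀ g : ℝ → ℝ, Continuous g → ∀ p : ENNReal,
      MemLp g p (volume.restrict (Ioc 0 (2 * Real.pi))) := by
    intro g hg p
    obtain ⟨C, hC⟩ := (isCompact_Icc (a := (0:ℝ)) (b := 2 * Real.pi)).exists_bound_of_continuousOn
      hg.continuousOn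
    refine MemLp.of_bound hg.aestronglyMeasurable C ?_
    refine (ae_restrict_iff' measurableSet_Ioc).2 (Eventually.of_forall fun x hx => ?_)
    exact hC x ⟨hx.1.le, hx.2⟩
  have hpq : Real.HolderConjugate (1 / (1 - w)) (1 / w) := by
    rw [Real.holderConjugate_iff]
    constructor
    · rw [one_lt_div (by linarith)]
      linarith
    · simp
  have h := integral_mul_le_Lp_mul_Lq_of_nonneg (μ := volume.restrict (Ioc 0 (2 * Real.pi))) hpq
    (f := fun θ => Real.exp ((1 - w) * α * f θ)) (g := fun θ => Real.exp (w * β * f θ))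
    (Eventually.of_forall fun _ => (Real.exp_pos _).le)
    (Eventually.of_forall fun _ => (Real.exp_pos _).le)
    (hbd _ (by fun_prop) _) (hbd _ (by fun_prop) _)
  have e1 : ∀ θ, Real.exp ((1 - w) * α * f θ) * Real.exp (w * β * f θ) =
      Real.exp (((1 - w) * α + w * β) * f θ) := by
    intro θ
    rw [← Real.exp_add]
    ring_nf
  have h1w : 1 - w ≠ 0 := by linarith
  have e2 : ∀ θ, Real.exp ((1 - w) * α * f θ) ^ (1 - w)⁻¹ = Real.exp (α * f θ) := by
    intro θ
    rw [← Real.exp_mul]
    congr 1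
    field_simp
  have e3 : ∀ θ, Real.exp (w * β * f θ) ^ w⁻¹ = Real.exp (β * f θ) := by
    intro θ
    rw [← Real.exp_mul]
    congr 1
    field_simp
  simp only [e1, one_div, inv_inv, e2, e3] at h
  exact h

theorem t_HOLD : V5helper73.GC.S_HOLD :=
  fun f hf α β w h0 h1 => holdx f hf α β w h0 h1

end V5helper37.GC
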